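import Pool.Agent.P8H31.VC.Stm6

/-!
Project VC (helper31), package ODD (helper45): the limits of odd order vanish, without a bound for the
fourth moments.
-/

set_option autoImplicit false
open MeasureTheory Filter Topology Complex ProbabilityTheory
open scoped ContDiff ENNReal

namespace Pool.Agent.P8H45.VC

open Pool.Agent.W745.RW Pool.Agent.TH294.RS Pool.Agent.TH294.RG Pool.Agent.TH421.DF
open Pool.Agent.TH421.AC Pool.Agent.P8H31.NZ Pool.Agent.P8H31.VC

/-- one step of the two point relation for a sequence with an exact ladder, bounded in `L²` -/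
theorem step {B : Set ℂ} (hB : IsOpen B) {a : ℂ → ℝ} {h : ℕ → ℝ} {w : ℕ → ℕ → ℂ → ℂ}
    (hh : Tendsto h atTop (𝓝 0)) (ha : ContDiffOn ℝ ∞ a B) (l : ∀ k, LB B 2 (w k))
    (e : ∀ k n z, w (k + 1) n z = DP a (h n) (w k n) z) (j k : ℕ) :
    WN B (fun n z => w (j + 1) n z * w k n z + w j n z * w (k + 1) n z) := by
  have l1 : LB B 1 (fun n z => w j n z * w k n z) := (l j).mul2 (l k)
  refine (l1.wnP hB hh ha).congr fun n z hz => ?_
  rw [e j n z, e k n z]
  simp only [DP]
  rw [dd_mul (da hB ((l j).sm n) hz) (da hB ((l k).sm n) hz)]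
  ring

theorem steps {B : Set ℂ} (hB : IsOpen B) {a : ℂ → ℝ} {h : ℕ → ℝ} {w : ℕ → ℕ → ℂ → ℂ}
    (hh : Tendsto h atTop (𝓝 0)) (ha : ContDiffOn ℝ ∞ a B) (l : ∀ k, LB B 2 (w k))
    (e : ∀ k n z, w (k + 1) n z = DP a (h n) (w k n) z) (i : ℕ) : ∀ j : ℕ,
    WN B (fun n z => w 0 n z * w (i + j) n z - (-1) ^ i * (w i n z * w j n z)) := by
  induction i with
  | zero =>
    intro j
    have h0 : WN B (fun n z => (0 : ℂ) * (w 1 n z * w 0 n z + w 0 n z * w 1 n z)) :=
      (step hB hh ha l e 0 0).cmul 0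
    refine h0.congr fun n z _ => ?_
    rw [Nat.zero_add]
    ring
  | succ i ih =>
    intro j
    have h1 := ih (j + 1)
    have h2 := (step hB hh ha l e i j).cmul ((-1) ^ i)
    refine (h1.add h2).congr fun n z _ => ?_
    have : i + 1 + j = i + (j + 1) := by omega
    rw [this]
    ring

theorem odd_wn {B : Set ℂ} (hB : IsOpen B) {a : ℂ → ℝ} {h : ℕ → ℝ} {w : ℕ → ℕ → ℂ → ℂ}
    (hh : Tendsto h atTop (𝓝 0)) (ha : ContDiffOn ℝ ∞ a B) (l : ∀ k, LB B 2 (w k))
    (e : ∀ k n z, w (k + 1) n z = DP a (h n) (w k n) z) {k : ℕ} (hk : ¬ Even k) :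
    WN B (fun n z => w 0 n z * w k n z) := by
  have h1 := (steps hB hh ha l e k 0).cmul (1 / 2)
  refine h1.congr fun n z _ => ?_
  have h2 : ((-1) ^ k : ℂ) = -1 := (Nat.not_even_iff_odd.1 hk).neg_one_pow
  rw [h2, Nat.add_zero]
  ring

theorem odd : S_ODD := by
  intro m ν Ω a h u K Y k hk
  have := Y.mk1
  have hB : IsOpen (interior K) := isOpen_interior
  have hBΩ : interior K ⊆ Ω := interior_subset.trans Y.hKΩ
  have hmB : ∀ K' : Set ℂ, IsCompact K' → K' ⊆ interior K → MemLp m 2 (volume.restrict K') :=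
    fun K' hK' hKB => Y.hm K' hK' (hKB.trans hBΩ)
  have ml : ML (interior K) (MM m ea ν k) := MM_ml ea_meas ea_norm hmB k
  have HB : RawG (interior K) a h u (MM m ea ν) := Y.H.sub hBΩ (σ := id) strictMono_id
  have l2 : ∀ j : ℕ, LB (interior K) 2 (wn a h (fun n z => (u n z : ℂ)) j) := fun j =>
    HB.lb2 hB (j : ℤ)
  have wn0 := odd_wn hB HB.hlim HB.sa l2 (fun j n z => by
    rw [wn_succ]) hk
  have hloc : LocallyIntegrableOn (MM m ea ν k) (interior K) := by
    rw [locallyIntegrableOn_iff hB.isLocallyClosed]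
    intro K' hK'B hK'
    have : IsFiniteMeasure (volume.restrict K') := ⟨by simpa using hK'.measure_lt_top⟩
    exact (ml K' hK' hK'B).integrable one_le_two
  have h1 := hB.ae_eq_zero_of_integral_contDiff_smul_eq_zero hloc (fun g hg hgc hgs => by
    have t : TF (interior K) g := ⟨hg, hgc, hgs⟩
    have l1 := HB.qe g t k
    have l3 := tendsto_nhds_unique l1 (wn0.nul g t)
    rw [← l3]
    congr 1)
  rw [ae_restrict_iff' hB.measurableSet]
  exact h1

end Pool.Agent.P8H45.VC
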